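import Pool.Agent.V11146.MK.Transfer

/-!
# The number of sifted integers in all intervals
-/

set_option autoImplicit false

namespace Pool.Agent.Helper32K9.Mark

open Filter Finset Polynomial
open Pool.Agent.W123.RP Pool.Agent.H373R2.T7 Pool.Agent.W123.RU Pool.Agent.W123.RU.Poly
open Pool.Agent.TH464.PW Pool.Agent.TH464.PO Pool.Agent.V11146.MK

open Classical in
/-- the fundamental lemma in all intervals -/
theorem fund_int (c : ℕ) (hc : 1 ≤ c) (ε : ℝ) (hε : 0 < ε) : ∃ K y₀ : ℕ, 1 ≤ K ∧ ∀ y : ℕ, y₀ ≤ y → ∀ Z Y : ℕ, y ^ K ≤ Y →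
    ∀ Q : ℕ → ℕ → Prop, PerB Q c →
      |(((Ioc Z (Z + Y)).filter (Sf Q y)).card : ℝ) - Y * Vq Q y| ≤ ε * (Y * Vq Q y) + √(Y : ℝ) := by
  obtain ⟨K, x0, hK, h⟩ := sys_fund c hc ε hε
  refine ⟨K, x0, hK, fun y hy Z Y hY Q hQ => ?_⟩
  have h3 := h Y y hy hY (Qt Q Z) (perB_Qt _ _ hQ Z) Y
  have e1 : ∏ p ∈ pz y, (1 - (nuB (Qt Q Z) p : ℝ) / p) = Vq Q y := Vq_Qt _ _ hQ Z y
  rw [e1, ← count_shift] at h3
  exact h3

/-- the square root is small -/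
theorem sqrt_small (k : ℕ) (v : ℝ) (hv : 0 < v) : ∃ y₀ : ℕ, ∀ y : ℕ, y₀ ≤ y → ∀ Y : ℕ, y ≤ Y →
    √(Y : ℝ) ≤ v * Y / Real.log y ^ k := by
  obtain ⟨y₀, h⟩ := Filter.eventually_atTop.1 ((logpow_rpow k (1 / v) (1 / 2) (by positivity) (by norm_num)).and
    (eventually_ge_atTop 3))
  refine ⟨y₀, fun y hy Y hY => ?_⟩
  obtain ⟨h1, h2⟩ := h y hy
  have hyr : (3 : ℝ) ≤ y := by exact_mod_cast h2
  have hYr : (y : ℝ) ≤ Y := by exact_mod_cast hY
  have hl : 0 < Real.log y := Real.log_pos (by linarith)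
  rw [le_div_iff₀ (by positivity)]
  rw [← Real.sqrt_eq_rpow] at h1
  have h3 : √(y : ℝ) ≤ √(Y : ℝ) := Real.sqrt_le_sqrt hYr
  have h4 : Real.log y ^ k ≤ v * √(Y : ℝ) := by
    have h5 : 1 / v * Real.log y ^ k ≤ √(Y : ℝ) := h1.trans h3
    rw [one_div, inv_mul_le_iff₀ hv] at h5
    exact h5
  have h6 : √(Y : ℝ) * √(Y : ℝ) = Y := Real.mul_self_sqrt (Nat.cast_nonneg _)
  calc √(Y : ℝ) * Real.log y ^ k ≤ √(Y : ℝ) * (v * √(Y : ℝ)) := by gcongr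
    _ = v * (√(Y : ℝ) * √(Y : ℝ)) := by ring
    _ = v * Y := by rw [h6]

open Classical in
/-- the number of sifted integers of a system in all intervals has the right order of magnitude -/
theorem sys_count_low {ι : Type} [Fintype ι] (f : ι → ℤ[X]) (hf : Sys f) :
    ∃ v : ℝ, 0 < v ∧ ∃ K y₀ : ℕ, ∀ y : ℕ, y₀ ≤ y → ∀ Z Y : ℕ, y ^ K ≤ Y →
      v * Y / Real.log y ^ (Fintype.card ι) ≤ (((Ioc Z (Z + Y)).filter (Sf (Q f) y)).card : ℝ) := by
  obtain ⟨c, hc, hQ⟩ := exists_c f hf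
  obtain ⟨v, Cv, hv, hCv, hV⟩ := V_bounds f hf
  obtain ⟨K, y₀, hK, h⟩ := fund_int c hc (1 / 4) (by norm_num)
  obtain ⟨y₁, h1⟩ := sqrt_small (Fintype.card ι) (v / 4) (by positivity)
  refine ⟨v / 2, by positivity, K, max (max y₀ y₁) 3, fun y hy Z Y hY => ?_⟩
  have hy3 : 3 ≤ y := by omega
  have hyY : y ≤ Y := by
    calc y = y ^ 1 := (pow_one y).symm
      _ ≤ y ^ K := Nat.pow_le_pow_right (by omega) hK
      _ ≤ Y := hY
  have h2 := (abs_le.1 (h y (by omega) Z Y hY (Q f) hQ)).1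
  have h3 := (hV y hy3).1
  have h4 := h1 y (by omega) Y hyY
  have hyr : (3 : ℝ) ≤ y := by exact_mod_cast hy3
  have hl : 0 < Real.log y := Real.log_pos (by linarith)
  have h5 : Y * (v / Real.log y ^ (Fintype.card ι)) ≤ Y * Vq (Q f) y := by gcongr
  have h6 : Y * (v / Real.log y ^ (Fintype.card ι)) = v * Y / Real.log y ^ (Fintype.card ι) := by ring
  have h7 : v / 4 * Y / Real.log y ^ (Fintype.card ι) = (v * Y / Real.log y ^ (Fintype.card ι)) / 4 := by ring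
  have h8 : v / 2 * Y / Real.log y ^ (Fintype.card ι) = (v * Y / Real.log y ^ (Fintype.card ι)) / 2 := by ring
  rw [h6] at h5
  rw [h7] at h4
  rw [h8]
  linarith

end Pool.Agent.Helper32K9.Mark
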