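import Pool.Agent.Helper32K9.Mark.Sys

/-!
# Frequent gap vectors of a set at the typical elements of a dense subset
-/

set_option autoImplicit false

namespace Pool.Agent.Helper32K9.Mark

open Filter Finset Polynomial
open Pool.Agent.W123.RU.Poly (Sys)
open Pool.Agent.X69.Ric
open Pool.Agent.Helper32K9.Reg
open Pool.Agent.Helper32K9.Typ

/-- The abstract step: if the vectors `h` with at least `κ M` occurrences are at least `κ L` many and there are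
at most `κ² M L / 4` exceptional points, then at least `κ L / 2` vectors have at least `κ M / 2` occurrences at
non exceptional points. -/
theorem frequent_typ_sub {m : ℕ} (A S T I : Set ℕ) (hI : I.Finite) (OKv : Set (Fin m → ℕ)) (hOK : OKv.Finite)
    (κ L M : ℝ) (hκ : 0 < κ) (hM : 0 < M)
    (h1 : κ * L ≤ ({h | h ∈ OKv ∧ κ * M ≤ ({n | n ∈ S ∧ n ∈ I ∧ NG A h n}.ncard : ℝ)}.ncard : ℝ))
    (h2 : ({n | n ∈ S ∧ n ∈ I ∧ n ∉ T}.ncard : ℝ) ≤ κ ^ 2 / 4 * (M * L)) :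
    κ / 2 * L ≤ ({h | h ∈ OKv ∧ κ / 2 * M ≤ ({n | n ∈ S ∧ n ∈ I ∧ NG A h n ∧ n ∈ T}.ncard : ℝ)}.ncard : ℝ) := by
  classical
  obtain ⟨G, hG⟩ : ∃ G : Set (Fin m → ℕ), G = {h | h ∈ OKv ∧ κ * M ≤ ({n | n ∈ S ∧ n ∈ I ∧ NG A h n}.ncard : ℝ)} :=
    ⟨_, rfl⟩
  obtain ⟨G', hG'⟩ : ∃ G' : Set (Fin m → ℕ),
      G' = {h | h ∈ OKv ∧ κ / 2 * M ≤ ({n | n ∈ S ∧ n ∈ I ∧ NG A h n ∧ n ∈ T}.ncard : ℝ)} := ⟨_, rfl⟩
  rw [← hG] at h1
  rw [← hG']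
  have hGf : G.Finite := hOK.subset (by rw [hG]; exact fun h hh => hh.1)
  have hGf' : G'.Finite := hOK.subset (by rw [hG']; exact fun h hh => hh.1)
  -- the bad vectors
  have hbadf : (G \ G').Finite := hGf.subset Set.sdiff_subset
  have hsets : ∀ h : Fin m → ℕ, {n | n ∈ S ∧ n ∈ I ∧ NG A h n}.ncard ≤
      {n | n ∈ S ∧ n ∈ I ∧ NG A h n ∧ n ∈ T}.ncard + {n | n ∈ S ∧ n ∈ I ∧ NG A h n ∧ n ∉ T}.ncard := by
    intro h
    refine le_trans (Set.ncard_le_ncard ?_ ?_) (Set.ncard_union_le _ _)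
    · rintro n ⟨k1, k2, k3⟩
      by_cases hT : n ∈ T
      · exact Or.inl ⟨k1, k2, k3, hT⟩
      · exact Or.inr ⟨k1, k2, k3, hT⟩
    · exact (hI.subset (fun n hn => hn.2.1)).union (hI.subset (fun n hn => hn.2.1))
  have hbad : ∀ h ∈ G \ G', κ / 2 * M ≤ ({n | n ∈ S ∧ n ∈ I ∧ NG A h n ∧ n ∉ T}.ncard : ℝ) := by
    rintro h ⟨hh1, hh2⟩
    rw [hG] at hh1
    rw [hG'] at hh2
    have h3 : ({n | n ∈ S ∧ n ∈ I ∧ NG A h n ∧ n ∈ T}.ncard : ℝ) < κ / 2 * M := by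
      by_contra hcon
      exact hh2 ⟨hh1.1, not_lt.1 hcon⟩
    have h4 : ({n | n ∈ S ∧ n ∈ I ∧ NG A h n}.ncard : ℝ) ≤
      {n | n ∈ S ∧ n ∈ I ∧ NG A h n ∧ n ∈ T}.ncard + {n | n ∈ S ∧ n ∈ I ∧ NG A h n ∧ n ∉ T}.ncard := by
      exact_mod_cast hsets h
    have h5 := hh1.2
    linarith
  have hsum : ((G \ G').ncard : ℝ) * (κ / 2 * M) ≤ κ ^ 2 / 4 * (M * L) := by
    refine le_trans ?_ h2
    rw [Set.ncard_eq_toFinset_card _ hbadf]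
    have h6 : (hbadf.toFinset.card : ℝ) * (κ / 2 * M) ≤
        ∑ h ∈ hbadf.toFinset, ({n | n ∈ S ∧ n ∈ I ∧ NG A h n ∧ n ∉ T}.ncard : ℝ) := by
      rw [← nsmul_eq_mul, ← Finset.sum_const]
      exact Finset.sum_le_sum fun h hh => hbad h ((Set.Finite.mem_toFinset _).1 hh)
    refine h6.trans ?_
    obtain ⟨E, hE⟩ : ∃ E : (Fin m → ℕ) → Finset ℕ, ∀ h, E h = (hI.toFinset).filter (fun n => n ∈ S ∧ NG A h n ∧ n ∉ T) :=
      ⟨_, fun h => rfl⟩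
    have h7 : ∀ h : Fin m → ℕ, {n | n ∈ S ∧ n ∈ I ∧ NG A h n ∧ n ∉ T}.ncard = (E h).card := by
      intro h
      rw [hE, ← Set.ncard_coe_finset]
      congr 1
      ext n
      rw [Finset.mem_coe, Finset.mem_filter, Set.Finite.mem_toFinset, Set.mem_ofPred_eq]
      tauto
    simp only [h7]
    rw [← Nat.cast_sum]
    apply Nat.cast_le.2
    rw [← Finset.card_biUnion]
    · rw [← Set.ncard_coe_finset]
      apply Set.ncard_le_ncard _ (hI.subset (fun n hn => hn.2.1))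
      intro n hn
      rw [Finset.mem_coe, Finset.mem_biUnion] at hn
      obtain ⟨h, _, hn⟩ := hn
      rw [hE, Finset.mem_filter, Set.Finite.mem_toFinset] at hn
      exact ⟨hn.2.1, hn.1, hn.2.2.2⟩
    · intro h _ h' _ hne
      rw [Function.onFun, Finset.disjoint_left]
      intro n hn hn'
      rw [hE, Finset.mem_filter] at hn hn'
      exact hne (NG_unique hn.2.2.1 hn'.2.2.1)
  have hbadle : ((G \ G').ncard : ℝ) ≤ κ / 2 * L := by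
    have h8 : ((G \ G').ncard : ℝ) * (κ / 2 * M) ≤ (κ / 2 * L) * (κ / 2 * M) := by
      refine hsum.trans (le_of_eq ?_)
      ring
    exact le_of_mul_le_mul_right h8 (by positivity)
  have h9 : (G.ncard : ℝ) ≤ G'.ncard + (G \ G').ncard := by
    have : G.ncard ≤ G'.ncard + (G \ G').ncard := by
      refine le_trans (Set.ncard_le_ncard ?_ (hGf'.union hbadf)) (Set.ncard_union_le _ _)
      intro h hh
      by_cases hh' : h ∈ G'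
      · exact Or.inl hh'
      · exact Or.inr ⟨hh, hh'⟩
    exact_mod_cast this
  linarith

variable {g : ℕ}

/-- **Frequent gap vectors at typical elements of a dense subset.** -/
theorem sys_gaptyp_sub (hg : 1 ≤ g) (F : Fin g → ℤ[X]) (hF : Sys F) (R : ℕ → ℕ → Prop)
    (hR : ∀ q n : ℕ, 1 ≤ n → (R q n ↔ ∃ i, (q : ℤ) ∣ (F i).eval (n : ℤ))) (θ : ℝ) (hθ : 0 < θ) (hθ1 : θ ≤ 1) :
    ∃ r₀ : ℕ, 2 ≤ r₀ ∧ ∀ r : ℕ, r₀ ≤ r → ∀ (c₀ : ℝ), 0 < c₀ → ∀ l : ℕ, 1 ≤ l → ∃ W κ : ℝ, 0 < W ∧ 0 < κ ∧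
    ∀ m K : ℕ, 1 ≤ K → ∃ c : ℝ, 0 < c ∧ ∀ δ : ℝ, 0 < δ → ∃ B : ℕ, ∀ᶠ X : ℕ in atTop, ∀ Y D : ℕ,
    (X : ℝ) ^ θ ≤ Y → 2 * Y ≤ X → Real.log X ^ B ≤ D → D ≤ Y → ∀ A : Set ℕ,
    (∀ n ∈ A, ∀ q : ℕ, q.Prime → R q n → (n : ℝ) ^ (1 / (r : ℝ)) < q) → ∀ S : Set ℕ, S ⊆ A →
    c₀ * Y / Real.log X ^ g ≤ ({n | n ∈ S ∧ n ∈ Set.Ioc X (X + Y)}.ncard : ℝ) →
    κ * Real.log X ^ (g * l) ≤ ({h : Fin l → ℕ | (∀ i, 0 < h i ∧ (h i : ℝ) ≤ W * Real.log X ^ g) ∧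
      κ * Y / Real.log X ^ (g * (l + 1)) ≤
        ({n | n ∈ S ∧ n ∈ Set.Ioc X (X + Y) ∧ NG A h n ∧
          n ∈ TypE A g c δ B K m X Y D ∩ TypE S g c δ B K m X Y D}.ncard : ℝ)}.ncard : ℝ) := by
  classical
  obtain ⟨r₀, hr₀, hpat⟩ := sys_regpat hg F hF R hR θ hθ hθ1
  refine ⟨r₀, hr₀, fun r hr c₀ hc₀ l hl => ?_⟩
  have hr0 : (0 : ℝ) < r := by exact_mod_cast (by omega : 0 < r)
  have hrr : (0 : ℝ) < 1 / r := by positivity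
  obtain ⟨W, hW, κ, hκ, hfrq⟩ := sys_frq_sub F hg hF (1 / r) θ c₀ hrr hθ hc₀ l hl
  refine ⟨W, κ / 2, hW, by positivity, fun m K hK => ?_⟩
  obtain ⟨c, hc, hc'⟩ := hpat r hr m K hK (κ ^ 2 / 8) (by positivity)
  refine ⟨c, hc, fun δ hδ => ?_⟩
  obtain ⟨B, hB⟩ := hc' δ hδ
  refine ⟨B, ?_⟩
  filter_upwards [hB, hfrq, eventually_ge_atTop 3] with X hX1 hX2 hX3
  intro Y D hXY hYX hD hDY A hA S hSA hdens
  have hXr : (3 : ℝ) ≤ X := by exact_mod_cast hX3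
  have hX0 : (0 : ℝ) < X := by linarith
  have hlX : 0 < Real.log X := Real.log_pos (by linarith)
  have hY0 : (0 : ℝ) < Y := lt_of_lt_of_le (by positivity) hXY
  have e1 := hX1 Y D hXY hYX hD hDY A hA
  have e1' := hX1 Y D hXY hYX hD hDY S (fun n hn => hA n (hSA hn))
  have e2 := hX2 X Y hXY A (fun n hn hnI i p hp hd => by
    have hn1 : 1 ≤ n := by have := hnI.1; omega
    refine le_trans ?_ (hA n hn p hp ((hR p n hn1).2 ⟨i, hd⟩)).le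
    exact Real.rpow_le_rpow hX0.le (by exact_mod_cast hnI.1.le) hrr.le) S hSA (by
    refine hdens.trans (le_of_eq ?_)
    rfl)
  have hfinOK : {h : Fin l → ℕ | ∀ i, 0 < h i ∧ (h i : ℝ) ≤ W * Real.log X ^ g}.Finite := by
    refine (Set.Finite.pi' (fun _ : Fin l => Set.finite_Icc 0 ⌊W * Real.log X ^ g⌋₊)).subset ?_
    intro h hh i
    exact ⟨Nat.zero_le _, Nat.le_floor (hh i).2⟩
  have e2' : ({n | n ∈ S ∧ n ∈ Set.Ioc X (X + Y) ∧ n ∉ TypE A g c δ B K m X Y D ∩ TypE S g c δ B K m X Y D}.ncard : ℝ) ≤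
      κ ^ 2 / 4 * Y / Real.log X ^ g := by
    have h1 : {n | n ∈ S ∧ n ∈ Set.Ioc X (X + Y) ∧ n ∉ TypE A g c δ B K m X Y D ∩ TypE S g c δ B K m X Y D}.ncard ≤
        {n | n ∈ A ∧ n ∈ Set.Ioc X (X + Y) ∧ n ∉ TypE A g c δ B K m X Y D}.ncard +
        {n | n ∈ S ∧ n ∈ Set.Ioc X (X + Y) ∧ n ∉ TypE S g c δ B K m X Y D}.ncard := by
      refine le_trans (Set.ncard_le_ncard ?_ ?_) (Set.ncard_union_le _ _)
      · rintro n ⟨k1, k2, k3⟩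
        by_cases hT : n ∈ TypE A g c δ B K m X Y D
        · exact Or.inr ⟨k1, k2, fun h => k3 ⟨hT, h⟩⟩
        · exact Or.inl ⟨hSA k1, k2, hT⟩
      · exact ((Set.finite_Ioc X (X + Y)).subset (fun n hn => hn.2.1)).union
          ((Set.finite_Ioc X (X + Y)).subset (fun n hn => hn.2.1))
    have h2 : ({n | n ∈ S ∧ n ∈ Set.Ioc X (X + Y) ∧ n ∉ TypE A g c δ B K m X Y D ∩ TypE S g c δ B K m X Y D}.ncard : ℝ) ≤
        {n | n ∈ A ∧ n ∈ Set.Ioc X (X + Y) ∧ n ∉ TypE A g c δ B K m X Y D}.ncard +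
        {n | n ∈ S ∧ n ∈ Set.Ioc X (X + Y) ∧ n ∉ TypE S g c δ B K m X Y D}.ncard := by
      exact_mod_cast h1
    refine h2.trans ((add_le_add e1 e1').trans (le_of_eq ?_))
    ring
  have key := frequent_typ_sub A S (TypE A g c δ B K m X Y D ∩ TypE S g c δ B K m X Y D) (Set.Ioc X (X + Y)) (Set.finite_Ioc _ _)
    {h : Fin l → ℕ | ∀ i, 0 < h i ∧ (h i : ℝ) ≤ W * Real.log X ^ g} hfinOK κ (Real.log X ^ (g * l))
    (Y / Real.log X ^ (g * (l + 1))) hκ (by positivity) (by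
      refine e2.trans (le_of_eq ?_)
      simp only [mul_div_assoc, Set.mem_ofPred_eq]) (by
      refine e2'.trans (le_of_eq ?_)
      have : Real.log X ^ (g * (l + 1)) = Real.log X ^ (g * l) * Real.log X ^ g := by
        rw [← pow_add]
        congr 1
      rw [this]
      field_simp)
  refine key.trans (le_of_eq ?_)
  simp only [mul_div_assoc, Set.mem_ofPred_eq]

/-- in any dense subset `S` of a set `A` of rough integers many vectors of gaps of `A` have the right frequency at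
elements of `S` which are typical elements both of `A` and of `S` -/
def GapsTypicalIn (k r : ℕ) (R : ℕ → ℕ → Prop) (θ : ℝ) : Prop :=
  ∀ (c₀ : ℝ), 0 < c₀ → ∀ l : ℕ, 1 ≤ l → ∃ W κ : ℝ, 0 < W ∧ 0 < κ ∧
    ∀ m K : ℕ, 1 ≤ K → ∃ c : ℝ, 0 < c ∧ ∀ δ : ℝ, 0 < δ → ∃ B : ℕ, ∀ᶠ X : ℕ in atTop, ∀ Y D : ℕ,
    (X : ℝ) ^ θ ≤ Y → 2 * Y ≤ X → Real.log X ^ B ≤ D → D ≤ Y → ∀ A : Set ℕ,
    (∀ n ∈ A, ∀ q : ℕ, q.Prime → R q n → (n : ℝ) ^ (1 / (r : ℝ)) < q) → ∀ S : Set ℕ, S ⊆ A →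
    c₀ * Y / Real.log X ^ k ≤ ((S ∩ Set.Ioc X (X + Y)).ncard : ℝ) →
    κ * Real.log X ^ (k * l) ≤ ({h : Fin l → ℕ | (∀ i, 0 < h i ∧ (h i : ℝ) ≤ W * Real.log X ^ k) ∧
      κ * Y / Real.log X ^ (k * (l + 1)) ≤
        ({n | n ∈ Typical A k c δ B K m X Y D ∧ n ∈ Typical S k c δ B K m X Y D ∧ NextGaps A h n}.ncard : ℝ)}.ncard : ℝ)

theorem sys_gaps_in (hg : 1 ≤ g) (F : Fin g → ℤ[X]) (hF : Sys F) (R : ℕ → ℕ → Prop)
    (hR : ∀ q n : ℕ, 1 ≤ n → (R q n ↔ ∃ i, (q : ℤ) ∣ (F i).eval (n : ℤ))) (θ : ℝ) (hθ : 0 < θ) (hθ1 : θ ≤ 1) :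
    ∃ r₀ : ℕ, 2 ≤ r₀ ∧ ∀ r : ℕ, r₀ ≤ r → GapsTypicalIn g r R θ := by
  obtain ⟨r₀, hr₀, h⟩ := sys_gaptyp_sub hg F hF R hR θ hθ hθ1
  refine ⟨r₀, hr₀, fun r hr c₀ hc₀ l hl => ?_⟩
  obtain ⟨W, κ, hW, hκ, h4⟩ := h r hr c₀ hc₀ l hl
  refine ⟨W, κ, hW, hκ, fun m K hK => ?_⟩
  obtain ⟨c, hc, h5⟩ := h4 m K hK
  refine ⟨c, hc, fun δ hδ => ?_⟩
  obtain ⟨B, h6⟩ := h5 δ hδ
  refine ⟨B, ?_⟩
  filter_upwards [h6] with X hX Y D k1 k2 k3 k4 A hA S hSA k5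
  refine (hX Y D k1 k2 k3 k4 A hA S hSA k5).trans (le_of_eq ?_)
  have : ∀ h : Fin l → ℕ, {n | n ∈ S ∧ n ∈ Set.Ioc X (X + Y) ∧ NG A h n ∧
      n ∈ TypE A g c δ B K m X Y D ∩ TypE S g c δ B K m X Y D} =
      {n | n ∈ Typical A g c δ B K m X Y D ∧ n ∈ Typical S g c δ B K m X Y D ∧ NextGaps A h n} := by
    intro h
    ext n
    rw [typE_eq, typE_eq, Set.mem_ofPred_eq, Set.mem_ofPred_eq]
    constructor
    · rintro ⟨-, -, h1, h2, h3⟩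
      exact ⟨h2, h3, h1⟩
    · rintro ⟨h1, h2, h3⟩
      exact ⟨h2.1.1, h1.1.2.1, h3, h1, h2⟩
  simp only [this]

end Pool.Agent.Helper32K9.Mark
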