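import Pool.Agent.Helper32K9.Mark.Right

/-!
# Gap vectors at the elements of a dense subset: systems of polynomials
-/

set_option autoImplicit false

namespace Pool.Agent.Helper32K9.Mark

open Filter Topology Finset Polynomial
open Pool.Agent.W123.RU.Poly (Sys)
open Pool.Agent.X69.Ric

variable {g : ℕ} (f : Fin g → ℤ[X])

/-- **gap vectors at the elements of a dense subset** -/
theorem sys_right_sub (hg : 1 ≤ g) (hf : Sys f) (δ θ c : ℝ) (hδ : 0 < δ) (hθ : 0 < θ) (hc : 0 < c) (m : ℕ) (hm : 1 ≤ m) :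
    ∃ K : ℝ, 0 < K ∧ ∃ κ : ℝ, 0 < κ ∧ ∀ᶠ X : ℕ in atTop, ∀ Z Y : ℕ, (X : ℝ) ^ θ ≤ Y →
      ∀ A : Set ℕ, A ⊆ Set.Ioc Z (Z + Y) →
      (∀ n ∈ A, ∀ i, ∀ p : ℕ, p.Prime → (p : ℤ) ∣ (f i).eval (n : ℤ) → (X : ℝ) ^ δ ≤ p) →
      ∀ S : Set ℕ, S ⊆ A → c * Y / Real.log X ^ g ≤ (S.ncard : ℝ) →
      κ * Real.log X ^ (g * m) ≤ (({h : Fin m → ℕ | (∀ i, 0 < h i ∧ (h i : ℝ) ≤ K * Real.log X ^ g) ∧
        κ * Y / Real.log X ^ (g * (m + 1)) ≤ (({n | n ∈ S ∧ NG A h n}.ncard : ℕ) : ℝ)}.ncard : ℕ) : ℝ) := by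
  obtain ⟨C₀, hC₀, hV⟩ := sys_up f hf
  obtain ⟨M, hM0, hMc⟩ := sys_coll f hf
  obtain ⟨e, he⟩ := zeros_bd M hM0
  obtain ⟨K, hK, κ, hκ, h⟩ := right_pack_sub (SF f) (sys_NF f hf) g hg C₀ hC₀ hV δ hδ θ hθ M hM0 hMc e he
    (small_int (SF f) (sys_NF f hf) g hg C₀ hC₀ hV δ hδ M hMc (fun h hh _ => sys_exc f hg hf h hh) e) m hm c hc
  refine ⟨K, hK, κ, hκ, ?_⟩
  filter_upwards [h] with X hX Z Y hXY A hA hRT S hSA hlow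
  exact hX Z Y hXY A hA (by
    intro n hn p hp hlt hdvd
    obtain ⟨i, hi⟩ := (SF_dvd f _ p hp).1 hdvd
    exact absurd (hRT n hn i p hp hi) (not_le.2 hlt)) S hSA hlow

theorem sys_frq_sub (hg : 1 ≤ g) (hf : Sys f) (δ θ c : ℝ) (hδ : 0 < δ) (hθ : 0 < θ) (hc : 0 < c) (m : ℕ) (hm : 1 ≤ m) :
    ∃ K : ℝ, 0 < K ∧ ∃ κ : ℝ, 0 < κ ∧ ∀ᶠ X : ℕ in atTop, ∀ Z Y : ℕ, (X : ℝ) ^ θ ≤ Y →
      ∀ A : Set ℕ,
      (∀ n ∈ A, n ∈ Set.Ioc Z (Z + Y) → ∀ i, ∀ p : ℕ, p.Prime → (p : ℤ) ∣ (f i).eval (n : ℤ) → (X : ℝ) ^ δ ≤ p) →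
      ∀ S : Set ℕ, S ⊆ A →
      c * Y / Real.log X ^ g ≤ ((S ∩ Set.Ioc Z (Z + Y)).ncard : ℝ) →
      κ * Real.log X ^ (g * m) ≤ ({h : Fin m → ℕ | (∀ i, 0 < h i ∧ (h i : ℝ) ≤ K * Real.log X ^ g) ∧
        κ * Y / Real.log X ^ (g * (m + 1)) ≤ ({n | n ∈ S ∧ n ∈ Set.Ioc Z (Z + Y) ∧ NG A h n}.ncard : ℝ)}.ncard : ℝ) := by
  obtain ⟨K, hK, κ, hκ, h⟩ := sys_right_sub f hg hf δ θ c hδ hθ hc m hm
  refine ⟨K, hK, κ, hκ, ?_⟩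
  filter_upwards [h] with X hX Z Y hXY A hA S hSA hlow
  have h1 := hX Z Y hXY (A ∩ Set.Ioc Z (Z + Y)) Set.inter_subset_right (fun n hn => hA n hn.1 hn.2)
    (S ∩ Set.Ioc Z (Z + Y)) (Set.inter_subset_inter_left _ hSA) hlow
  refine h1.trans ?_
  apply Nat.cast_le.2
  apply Set.ncard_le_ncard
  · intro h hh
    refine ⟨hh.1, hh.2.trans ?_⟩
    apply Nat.cast_le.2
    apply Set.ncard_le_ncard
    · intro n hn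
      exact ⟨hn.1.1, hn.1.2, NG_inter hn.1.2 hn.2⟩
    · exact (Set.finite_Ioc Z (Z + Y)).subset (fun n hn => hn.2.1)
  · refine (Set.Finite.pi' (fun _ : Fin m => Set.finite_Icc 0 ⌊K * Real.log X ^ g⌋₊)).subset ?_
    intro h hh i
    exact ⟨Nat.zero_le _, Nat.le_floor (hh.1 i).2⟩

end Pool.Agent.Helper32K9.Mark
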