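import Pool.Agent.Results.MP_74f661_nt.RoughPairPatterns
import Pool.Agent.Helper32K9.Mark.Sys
import Pool.Agent.Helper32K9.Mark.Fund
import Pool.Agent.Helper32K9.Reg.Twin

/-!
# Rough twins: residue patterns and gap vectors
-/

set_option autoImplicit false

namespace Pool.Agent.Helper32K9.Mark

open Filter Finset Polynomial
open Pool.Agent.W123.RP Pool.Agent.H373R2.T7 Pool.Agent.W123.RU Pool.Agent.W123.RU.Poly
open Pool.Agent.TH464.PO
open Pool.Agent.W182.PW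
open Pool.Agent.Results.MP_74f661_nt.RoughPairPatterns (RoughPair Consecutive total count)

theorem twin_sys : Sys (fun i : Fin 2 => lin 1 ((![0, 2] : Fin 2 → ℕ) i : ℤ)) := by
  have hinj : Function.Injective (![0, 2] : Fin 2 → ℕ) := by
    intro i j hij
    fin_cases i <;> fin_cases j <;> simp at hij ⊢
  have := Pool.Agent.TH977.PW.sys_lin (fun _ : Fin 2 => 1) (fun i => ((![0, 2] : Fin 2 → ℕ) i : ℤ)) (fun _ => one_pos)
    (fun i => by rw [Nat.cast_one]; exact isCoprime_one_left) (fun i j _ h => hinj (by exact_mod_cast h)) (fun p hp => by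
      obtain ⟨m, h1, h2⟩ := Pool.Agent.Helper32K9.Twin.adm 1 (Or.inl rfl) p hp
      refine ⟨4 * m + 1, fun i h => ?_⟩
      have e : ((1 : ℕ) : ℤ) * ((4 * m + 1 : ℕ) : ℤ) + ((![0, 2] : Fin 2 → ℕ) i : ℤ) =
          ((4 * m + 1 + (![0, 2] : Fin 2 → ℕ) i : ℕ) : ℤ) := by
        push_cast; ring
      rw [e] at h
      have h' : p ∣ 4 * m + 1 + (![0, 2] : Fin 2 → ℕ) i := by exact_mod_cast h
      fin_cases i
      · exact h1 (by simpa using h')
      · exact h2 (by simpa using h'))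
  exact this

theorem twin_dvd (p n : ℕ) : (∃ i : Fin 2, (p : ℤ) ∣ (lin 1 ((![0, 2] : Fin 2 → ℕ) i : ℤ)).eval (n : ℤ)) ↔
    p ∣ n ∨ p ∣ n + 2 := by
  have hev : ∀ (i : Fin 2), (lin 1 ((![0, 2] : Fin 2 → ℕ) i : ℤ)).eval (n : ℤ) =
      ((n + (![0, 2] : Fin 2 → ℕ) i : ℕ) : ℤ) := by
    intro i
    rw [lin_eval]
    push_cast
    ring
  simp only [hev, Int.natCast_dvd_natCast]
  exact Pool.Agent.Helper32K9.Twin.div_iff p n

theorem rough_sf (z n : ℕ) : RoughPair z n ↔ Sf (Q (fun i : Fin 2 => lin 1 ((![0, 2] : Fin 2 → ℕ) i : ℤ))) z n := by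
  unfold RoughPair Sf Q
  constructor
  · intro h p hp hd
    have hp2 := mem_pz.1 hp
    rcases (twin_dvd p n).1 hd with h1 | h1
    · exact (h p hp2.2 hp2.1).1 h1
    · exact (h p hp2.2 hp2.1).2 h1
  · intro h p hp hpz
    have h1 := h p (mem_pz.2 ⟨hpz, hp⟩)
    rw [twin_dvd] at h1
    exact not_or.1 h1

open Classical in
/-- the number of rough twins in all intervals -/
theorem total_low : ∃ v : ℝ, 0 < v ∧ ∃ K z₀ : ℕ, ∀ z : ℕ, z₀ ≤ z → ∀ Z Y : ℕ, z ^ K ≤ Y →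
    v * Y / Real.log z ^ 2 ≤ (total z Z Y : ℝ) := by
  obtain ⟨v, hv, K, y₀, h⟩ := sys_count_low _ twin_sys
  refine ⟨v, hv, K, y₀, fun z hz Z Y hY => (h z hz Z Y hY).trans (le_of_eq ?_)⟩
  unfold total
  congr 2
  apply Finset.filter_congr
  intro n _
  exact (rough_sf z n).symm

/-- the gap vectors of the rough twins in all intervals, at the elements of dense subsets -/
theorem twin_gaps (k : ℕ) (hk : 1 ≤ k) (K : ℕ) (hK : 1 ≤ K) (c : ℝ) (hc : 0 < c) :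
    ∃ W κ : ℝ, 0 < W ∧ 0 < κ ∧ ∃ z₀ : ℕ, ∀ z : ℕ, z₀ ≤ z → ∀ Z Y : ℕ, z ^ K ≤ Y → ∀ A : Set ℕ, (∀ n ∈ A, RoughPair z n) →
      ∀ S : Set ℕ, S ⊆ A → c * Y / Real.log z ^ 2 ≤ ((S ∩ Set.Ioc Z (Z + Y)).ncard : ℝ) →
      κ * Real.log z ^ (2 * k) ≤ ({h : Fin k → ℕ | (∀ i, 0 < h i ∧ (h i : ℝ) ≤ W * Real.log z ^ 2) ∧
        κ * Y / Real.log z ^ (2 * (k + 1)) ≤
          ({n | n ∈ S ∧ n ∈ Set.Ioc Z (Z + Y) ∧ Pool.Agent.Helper32K9.Typ.NextGaps A h n}.ncard : ℝ)}.ncard : ℝ) := by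
  have hK0 : (0 : ℝ) < K := by exact_mod_cast hK
  obtain ⟨W, hW, κ, hκ, h⟩ := sys_frq_sub (fun i : Fin 2 => lin 1 ((![0, 2] : Fin 2 → ℕ) i : ℤ)) (by norm_num) twin_sys
    1 K c one_pos hK0 hc k hk
  obtain ⟨z₀, hz₀⟩ := Filter.eventually_atTop.1 h
  refine ⟨W, κ, hW, hκ, z₀, fun z hz Z Y hY A hA S hSA hS => ?_⟩
  refine hz₀ z hz Z Y (by rw [Real.rpow_natCast]; exact_mod_cast hY) A ?_ S hSA hS
  intro n hn _ i p hp hd
  rw [Real.rpow_one]
  by_contra hcon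
  rw [not_le] at hcon
  have hpz : p ≤ z := by
    have : p < z := by exact_mod_cast hcon
    exact this.le
  have h1 := hA n hn p hp hpz
  rcases (twin_dvd p n).1 ⟨i, hd⟩ with h2 | h2
  · exact h1.1 h2
  · exact h1.2 h2

end Pool.Agent.Helper32K9.Mark
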